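import Pool.Agent.Y144.DL.Ell

/-!
# The period conjecture for twists of `A₀ ⊗ Λ`, for ALL Galois lattices `Λ`, from ABELIAN twists of `A₀`

`A₀` is an abelian variety over `ℚ` of dimension `r` (for instance an elliptic curve or a factor of `J₀(N)`) with
rational Frobenius traces `M`. `L / ℚ` is ANY finite Galois extension in `ℂ`, and `L₁ ⊇ L` is obtained by adjoining
square roots; `Gal(L₁/L)` is an elementary abelian `2`-group. `GQ L₁ = Gal(L₁/ℚ)`, `Fr p ∈ Gal(L₁/ℚ)` is a Frobenius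
element at `p`, and `c` is complex conjugation. `lam` is the character of a lattice `Λ` on which `Gal(L/ℚ)` acts,
`a`, `b` are the dimensions of the eigenspaces of `c` on `Λ`, and `A = A₀ ⊗ Λ`, an abelian variety over `ℚ` of
dimension `r (a + b)` (for instance a Weil restriction `Res_(K' / ℚ) A₀`, `K' ⊆ L`). `ψ` is a character of
`Gal(L/ℚ)` with values in `K = ℚ(ψ)` and `ψ c = 1`, and `g τ` is the Gauss sum `τ^*(ψ̌)` for the embedding `τ` of
`ℚ(ψ)` in `ℂ`. Primes ramified in `L₁` are left out of the Euler products, which changes the values by elements of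
`ℚ(ψ)`.

`Ωp`, `i ^ r Ωm` are the periods `c^+`, `c^-` of `A₀` and `i ^ b Δ` is the period of the Artin motive `Λ`, so that
`Ω_A^+ = Ωp ^ a Ωm ^ b Δ ^ r` up to `ℚ^×` (Deligne). A term of `LAt M Fr θ 1` is `L(s, A₀ ⊗ θ)`: for every embedding
of the coefficients a meromorphic function on `ℂ` with this Euler product, holomorphic and nonzero at `1`.
-/

set_option autoImplicit false

open Pool.Agent.Y144.DL

attribute [local instance high] IntermediateField.algebra'

/-- Suppose (`AbelianTwists`) that for each subfield `k = L₁^H` over which `L₁` is SOLVABLE and each character `χ`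
of `Gal(L₁/k)` the function `L(s, A₀/k ⊗ χ)` has a meromorphic continuation, holomorphic and nonzero at `1`, that
for characters of `Gal(L₁/k)` with the same signs at the real places of `k` the values have the expected
quotients, up to a factor in a field `E` with enough roots of unity, and that up to `E` the period conjecture holds
for `A₀` and for ONE odd Dirichlet twist. Then `L(s, A, τ ∘ ψ)` has a meromorphic continuation, holomorphic and
nonzero at `1`, and parts (i) and (ii) of the conjecture hold for `A = A₀ ⊗ Λ` and `ψ`: there is `e` in `ℚ(ψ)` such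
that, for all embeddings `τ`, `𝓛(A, τ ∘ ψ) = τ^*(τ ψ̌) ^ (dim A) L(A, τ ∘ ψ, 1) / Ω_A^+ = τ(e)`. -/
theorem Pool.Agent.Results.MP_21281f_nt.AllGaloisLattices.result
    (L : IntermediateField ℚ ℂ) [FiniteDimensional ℚ L] [Normal ℚ L] :
    ∃ (L₁ : IntermediateField ℚ ℂ) (_ : FiniteDimensional ℚ L₁) (_ : Normal ℚ L₁), L ≤ L₁ ∧
      (∀ s ∈ gal L L₁, s * s = 1) ∧
      ∀ (K E : Type) [Field K] [CharZero K] [Field E] [Algebra K E] [Algebra.IsAlgebraic K E]
        (_ : HasEnoughRootsOfUnity E (Nat.card (GQ L₁))) (c : GQ L₁) (_ : IsConjC c)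
        (M : FrobData ℚ) (Fr : Nat.Primes → GQ L₁) (P : ArtinPeriods E (GQ L₁)) (r : ℕ)
        (Ωp Ωm : ℝ) (_ : Ωp ≠ 0) (_ : Ωm ≠ 0)
        (_ : AbelianTwists (fun H : Subgroup (GQ L₁) => Group.IsSolvable H) c ((M.map K).map E) Fr 1 P r
          (fun _ => (Ωp : ℂ)) (fun _ => Complex.I ^ r * Ωm))
        (lam : GQ L₁ → ℚ) (_ : IsCharN (gal L L₁) lam) (a b : ℕ) (_ : lam 1 = a + b)
        (_ : lam c = a - b) (ψ : GQ L₁ →* Kˣ) (_ : ∀ s ∈ gal L L₁, ψ s = 1) (_ : ψ c = 1)
        (g : (K →+* ℂ) → ℂ) (_ : ∀ τ, g τ ≠ 0) (Δ : ℝ) (_ : Δ ≠ 0)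
        (_ : P.δ (fun x => algebraMap K E (ψ x * algebraMap ℚ K (lam x))) =
          lft E fun τ => Complex.I ^ b * Δ / g τ ^ (a + b)),
        ∃ X : LAt (M.map K) Fr (fun x => ψ x * algebraMap ℚ K (lam x)) 1, ∃ e : K, e ≠ 0 ∧
          ∀ τ : K →+* ℂ, g τ ^ (r * (a + b)) * X.L τ 1 / (Ωp ^ a * Ωm ^ b * Δ ^ r) = τ e := by
  refine ⟨big L, inferInstance, inferInstance, le_big L, ?_, ?_⟩
  · intro s hs
    rw [gal_eq] at hs
    exact big_fixer_sq L s hs
  intro K E _ _ _ _ _ hE c hc M Fr P r Ωp Ωm hp hm h lam hlam a b ha hb ψ hψN hψ g hg Δ hΔ hd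
  have hp' : (Ωp : ℂ) ≠ 0 := Complex.ofReal_ne_zero.2 hp
  have hm' : (Ωm : ℂ) ≠ 0 := Complex.ofReal_ne_zero.2 hm
  have hΔ' : (Δ : ℂ) ≠ 0 := Complex.ofReal_ne_zero.2 hΔ
  obtain ⟨X, e, he, h2⟩ := main_GQ (K := K) L hE hc (M := M.map K)
    (cP := fun _ => (Ωp : ℂ)) (cM := fun _ => Complex.I ^ r * Ωm) h
    (fun x => ψ x * algebraMap ℚ K (lam x)) (isCharN_twist (isCharN_map hlam) ψ hψN) a b
    (by
      show ((ψ 1 : Kˣ) : K) * algebraMap ℚ K (lam 1) = _
      rw [ha, map_one, Units.val_one, one_mul, map_add, map_natCast, map_natCast])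
    (by
      show ((ψ c : Kˣ) : K) * algebraMap ℚ K (lam c) = _
      rw [hb, hψ, Units.val_one, one_mul, map_sub, map_natCast, map_natCast])
    (fun τ => Complex.I ^ b * Δ / g τ ^ (a + b)) hd
  refine ⟨X, e * (-1) ^ (r * b), mul_ne_zero he (pow_ne_zero _ (neg_ne_zero.2 one_ne_zero)),
    fun τ => ?_⟩
  have h3 := h2 τ
  have h7 : X.value τ = X.L τ 1 := rfl
  rw [← h7]
  simp only [Pi.mul_apply, Pi.pow_apply] at h3
  have h5 : (Complex.I ^ r) ^ b * (Complex.I ^ b) ^ r = (-1) ^ (r * b) := by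
    rw [← pow_mul, ← pow_mul, mul_comm b r, ← mul_pow, Complex.I_mul_I]
  have hgτ : g τ ^ (r * (a + b)) ≠ 0 := pow_ne_zero _ (hg τ)
  have h6 : (g τ ^ (a + b)) ^ r = g τ ^ (r * (a + b)) := by
    rw [← pow_mul, mul_comm]
  rw [h3, mul_pow, div_pow, mul_pow, h6, map_mul, map_pow, map_neg, map_one, ← h5]
  field_simp
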