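import Pool.Agent.Y144.DL.AbnThm
import Pool.Agent.Y144.DL.Twist

/-!
# The period conjecture for twists of the abelian varieties `A₀ ⊗ Λ`, from ABELIAN twists of `A₀`

`A₀` is an abelian variety over `ℚ` of dimension `r` (for instance an elliptic curve or a factor of `J₀(N)`) with
rational Frobenius traces `M`. `L / ℚ` is a finite Galois extension with group `G`, Frobenius elements `Fr p`
and complex conjugation `c`, such that `c` is central modulo a normal subgroup `N` of odd order: `L` is an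
extension of odd degree of a totally real or CM field. `Z` is any abelian normal subgroup of `G` (for instance
`Z = ⟨c⟩` if `L` is CM, `Z = N` if `N` is abelian). `lam` is the character of a lattice `Λ` on which `G` acts, `a`,
`b` are the dimensions of the eigenspaces of `c` on `Λ`, and `A = A₀ ⊗ Λ`, an abelian variety over `ℚ` of dimension
`r (a + b)` (for instance a Weil restriction `Res_(K / ℚ) A₀`, `K ⊆ L`). `ψ` is a character of `G` with values in
`K = ℚ(ψ)` and `ψ c = 1` (a character of a totally real abelian field contained in `L`), and `g τ` is the Gauss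
sum `τ^*(ψ̌)` for the embedding `τ` of `ℚ(ψ)` in `ℂ`. Primes ramified in `L` are left out of the Euler products,
which changes the values by elements of `ℚ(ψ)`.

`Ωp`, `i ^ r Ωm` are the periods `c^+`, `c^-` of `A₀` and `i ^ b Δ` is the period of the Artin motive `Λ`, so that
`Ω_A^+ = Ωp ^ a Ωm ^ b Δ ^ r` up to `ℚ^×` (Deligne). A term of `LAt M Fr θ 1` is `L(s, A₀ ⊗ θ)`: for every embedding
of the coefficients a meromorphic function on `ℂ` with this Euler product, holomorphic and nonzero at `1`.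
-/

set_option autoImplicit false

open Pool.Agent.Y144.DL

/-- Suppose (`AbelianTwists`) that for each subfield `k = L^H` of `L^Z` over which `L` is SOLVABLE and each
character `χ` of `Gal(L/k)` the function `L(s, A₀/k ⊗ χ)` has a meromorphic continuation, holomorphic and nonzero
at `1`, that for characters of `Gal(L/k)` with the same signs at the real places of `k` the values have the
expected quotients, up to a factor in a field `E` with enough roots of unity, and that up to `E` the period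
conjecture holds for `A₀` and (if `c ≠ 1`) for ONE odd Dirichlet twist. Then `L(s, A, τ ∘ ψ)` has a meromorphic
continuation, holomorphic and nonzero at `1`, and parts (i) and (ii) of the conjecture hold for `A = A₀ ⊗ Λ` and
`ψ`: there is `e` in `ℚ(ψ)` such that, for all embeddings `τ`,
`𝓛(A, τ ∘ ψ) = τ^*(τ ψ̌) ^ (dim A) L(A, τ ∘ ψ, 1) / Ω_A^+ = τ(e)`. -/
theorem Pool.Agent.Results.MP_21281f_nt.ArtinMultiples.result
    {K : Type} [Field K] [CharZero K] {E : Type} [Field E] [Algebra K E] [Algebra.IsAlgebraic K E]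
    {G : Type} [Group G] [Finite G]
    (hE : HasEnoughRootsOfUnity E (Nat.card G)) (c : G) (N Z : Subgroup G) (hN : N.Normal)
    (hodd : Odd (Nat.card N)) (hcN : ∀ g : G, g * c * g⁻¹ * c⁻¹ ∈ N) (hcc : c * c = 1)
    (hZ : Z.Normal) (hZab : ∀ x ∈ Z, ∀ y ∈ Z, x * y = y * x)
    (M : FrobData ℚ) (Fr : Nat.Primes → G) (P : ArtinPeriods E G) (r : ℕ) (Ωp Ωm : ℝ) (hp : Ωp ≠ 0)
    (hm : Ωm ≠ 0)
    (h : AbelianTwists (fun H : Subgroup G => Group.IsSolvable H ∧ Z ≤ H) c ((M.map K).map E) Fr 1 P r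
      (fun _ => (Ωp : ℂ)) (fun _ => Complex.I ^ r * Ωm))
    (lam : G → ℚ) (hlam : IsChar lam) (a b : ℕ) (ha : lam 1 = a + b) (hb : lam c = a - b)
    (ψ : G →* Kˣ) (hψ : ψ c = 1) (g : (K →+* ℂ) → ℂ) (hg : ∀ τ, g τ ≠ 0) (Δ : ℝ) (hΔ : Δ ≠ 0)
    (hd : ∀ σ : E →+* ℂ, P.δ (fun x => algebraMap K E (ψ x * algebraMap ℚ K (lam x))) σ =
      Complex.I ^ b * Δ / g (σ.comp (algebraMap K E)) ^ (a + b)) :
    ∃ X : LAt (M.map K) Fr (fun x => ψ x * algebraMap ℚ K (lam x)) 1, ∃ e : K, e ≠ 0 ∧
      ∀ τ : K →+* ℂ, g τ ^ (r * (a + b)) * X.L τ 1 / (Ωp ^ a * Ωm ^ b * Δ ^ r) = τ e := by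
  have hp' : (Ωp : ℂ) ≠ 0 := Complex.ofReal_ne_zero.2 hp
  have hm' : (Ωm : ℂ) ≠ 0 := Complex.ofReal_ne_zero.2 hm
  have hΔ' : (Δ : ℂ) ≠ 0 := Complex.ofReal_ne_zero.2 hΔ
  have hθ : IsChar fun x => (ψ x : K) * algebraMap ℚ K (lam x) :=
    isChar_twist (isChar_map hlam) ψ
  obtain ⟨X, e, he, h2⟩ := main_Z (K := K) hE hN hodd hcN hcc hZ hZab (M := M.map K)
    (cP := fun _ => (Ωp : ℂ)) (cM := fun _ => Complex.I ^ r * Ωm) h
    (fun x => ψ x * algebraMap ℚ K (lam x)) hθ a b
    (by
      show ((ψ 1 : Kˣ) : K) * algebraMap ℚ K (lam 1) = _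
      rw [ha, map_one, Units.val_one, one_mul, map_add, map_natCast, map_natCast])
    (by
      show ((ψ c : Kˣ) : K) * algebraMap ℚ K (lam c) = _
      rw [hb, hψ, Units.val_one, one_mul, map_sub, map_natCast, map_natCast])
    (fun τ => Complex.I ^ b * Δ / g τ ^ (a + b)) (funext hd)
  refine ⟨X, e * (-1) ^ (r * b), mul_ne_zero he (pow_ne_zero _ (neg_ne_zero.2 one_ne_zero)),
    fun τ => ?_⟩
  have h3 := h2 τ
  have h7 : X.value τ = X.L τ 1 := rfl
  rw [← h7]
  simp only [Pi.mul_apply, Pi.pow_apply] at h3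
  have h5 : (Complex.I ^ r) ^ b * (Complex.I ^ b) ^ r = (-1) ^ (r * b) := by
    rw [← pow_mul, ← pow_mul, mul_comm b r, ← mul_pow, Complex.I_mul_I]
  have hgτ : g τ ^ (r * (a + b)) ≠ 0 := pow_ne_zero _ (hg τ)
  have h6 : (g τ ^ (a + b)) ^ r = g τ ^ (r * (a + b)) := by
    rw [← pow_mul, mul_comm]
  rw [h3, mul_pow, div_pow, mul_pow, h6, map_mul, map_pow, map_neg, map_one, ← h5]
  field_simp
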